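import Pool.Agent.K1H88.DF.Stm
import Pool.Agent.K1H89.DP.Ideal

/-! Number of the embeddings above one embedding, and the product formula. -/

set_option autoImplicit false

namespace Pool.Agent.K1H45.DF

open Pool.Agent.K1H88.DF NumberField Module
open Pool.Agent.K1H88.DP (Kp cont)

theorem card_fib (F L : Type) [Field F] [NumberField F] [Field L] [NumberField L] [Algebra F L]
    (K : Type) [Field K] [CharZero K] [IsAlgClosed K] (u : F →+* K) :
    Nat.card {s : L →+* K // s.comp (algebraMap F L) = u} = finrank F L := by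
  letI := u.toAlgebra
  haveI : FiniteDimensional F L := Module.Finite.of_restrictScalars_finite ℚ F L
  let eq : (L →ₐ[F] K) ≃ {s : L →+* K // s.comp (algebraMap F L) = u} :=
    { toFun := fun f => ⟨f.toRingHom, f.comp_algebraMap⟩
      invFun := fun s => { s.1 with commutes' := fun r => congrArg (fun g : F →+* K => g r) s.2 }
      left_inv := fun f => by ext; rfl
      right_inv := fun s => by ext; rfl }
  rw [← Nat.card_congr eq, Nat.card_eq_fintype_card, AlgHom.card]

theorem t_CARD : S_CARD := by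
  classical
  intro F _ _ ι _ E _ _ _ K _ _ _ u
  let eq : EmbU F E u ≃ Σ k, {s : E k →+* K // s.comp (algebraMap F (E k)) = u} :=
    { toFun := fun i => ⟨i.1.1, ⟨i.1.2, i.2⟩⟩
      invFun := fun j => ⟨⟨j.1, j.2.1⟩, j.2.2⟩
      left_inv := fun _ => rfl
      right_inv := fun _ => rfl }
  rw [← Nat.card_eq_fintype_card, Nat.card_congr eq, Nat.card_sigma]
  unfold deg
  exact Finset.sum_congr rfl fun k _ => card_fib F (E k) K u

theorem t_PF : S_PF := by
  intro F _ _ e he
  have hN : Algebra.norm ℚ e ≠ 0 := Algebra.norm_ne_zero_iff.2 he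
  have h1 : cont F e 0 = ∏ᶠ p : Nat.Primes, ‖((Algebra.norm ℚ e : ℚ) : ℚ_[(p : ℕ)])‖ := by
    unfold cont
    refine finprod_congr fun p => ?_
    rw [← Pool.Agent.K1H89.DP.prod_norm_eq]
    refine Finset.prod_congr rfl fun σ _ => ?_
    rw [map_zero, norm_zero, max_eq_left (norm_nonneg _)]
  have h2 : ∏ u : F →+* ℂ, ‖u e‖ = |((Algebra.norm ℚ e : ℚ) : ℝ)| := by
    have h3 := Algebra.norm_eq_prod_embeddings ℚ ℂ e
    rw [eq_ratCast] at h3
    have h4 : |((Algebra.norm ℚ e : ℚ) : ℝ)| = ‖((Algebra.norm ℚ e : ℚ) : ℂ)‖ := by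
      rw [← Complex.ofReal_ratCast, Complex.norm_real, Real.norm_eq_abs]
    rw [h4, h3, ← norm_prod]
    congr 1
    exact Fintype.prod_equiv (RingHom.equivRatAlgHom F ℂ) _ _ fun f => rfl
  rw [h1, h2]
  exact (Pool.Agent.K1H89.DP.rat_formula _ hN).2

end Pool.Agent.K1H45.DF
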