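import Pool.Agent.K1H88.DF.Stm
import Pool.Agent.K1H45.DP.Box

/-! Pairs of integers in a slab, over a number field. -/

set_option autoImplicit false

namespace Pool.Agent.K1H45.DF

open Pool.Agent.K1H88.DF NumberField Module
open Pool.Agent.K1H45.DP (Bx)

section

variable {F : Type} [Field F] [NumberField F] {ι : Type} [Fintype ι] {E : ι → Type}
  [∀ k, Field (E k)] [∀ k, NumberField (E k)] [∀ k, Algebra F (E k)]

/-- the quotient changes by `u b` when a multiple of `x` is added to `y` -/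
theorem wt_add (x y : ∀ k, E k) (b : F) {u : F →+* ℂ} (i : EmbU F E u)
    (h : i.1.2 (x i.1.1) ≠ 0) : wt E x (y + b • x) i.1 = wt E x y i.1 + u b := by
  unfold wt
  rw [Pi.add_apply, Pi.smul_apply, Algebra.smul_def, map_add, map_mul, add_div,
    mul_div_cancel_right₀ _ h]
  congr 1
  exact congrArg (fun f : F →+* ℂ => f b) i.2

theorem slab_diff {x y y' : ∀ k, E k} {b b' : F} {B : ℝ} {i₀ : ∀ u : F →+* ℂ, EmbU F E u}
    (h : InSlab F E x y B i₀) (h' : InSlab F E x y' B i₀) (he : y + b • x = y' + b' • x)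
    (u : F →+* ℂ) : ‖u (b - b')‖ ≤ B := by
  obtain ⟨h1, h2⟩ := h u
  obtain ⟨-, h3⟩ := h' u
  have h4 := (h (ComplexEmbedding.conjugate u)).1
  have e1 := wt_add x y b (i₀ u) h1
  have e2 := wt_add x y' b' (i₀ u) h1
  have e3 := wt_add x y b (i₀ (ComplexEmbedding.conjugate u)) h4
  have e4 := wt_add x y' b' (i₀ (ComplexEmbedding.conjugate u)) h4
  rw [he] at e1 e3
  have e5 : ∀ z : F, (starRingEnd ℂ) (ComplexEmbedding.conjugate u z) = u z := fun z => by
    rw [ComplexEmbedding.conjugate_coe_eq, Complex.conj_conj]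
  have e6 : (wt E x y' (i₀ u).1 +
      (starRingEnd ℂ) (wt E x y' (i₀ (ComplexEmbedding.conjugate u)).1)) -
      (wt E x y (i₀ u).1 +
      (starRingEnd ℂ) (wt E x y (i₀ (ComplexEmbedding.conjugate u)).1)) = 2 * u (b - b') := by
    have f1 : wt E x y' (i₀ u).1 = wt E x y (i₀ u).1 + u b - u b' := by
      rw [← e1, e2]; ring
    have f2 : wt E x y' (i₀ (ComplexEmbedding.conjugate u)).1 =
        wt E x y (i₀ (ComplexEmbedding.conjugate u)).1 + ComplexEmbedding.conjugate u b -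
          ComplexEmbedding.conjugate u b' := by
      rw [← e3, e4]; ring
    rw [f1, f2, map_sub, map_add, e5, e5, map_sub]
    ring
  have h5 := norm_sub_le (wt E x y' (i₀ u).1 +
      (starRingEnd ℂ) (wt E x y' (i₀ (ComplexEmbedding.conjugate u)).1))
      (wt E x y (i₀ u).1 + (starRingEnd ℂ) (wt E x y (i₀ (ComplexEmbedding.conjugate u)).1))
  rw [e6, norm_mul, Complex.norm_ofNat] at h5
  linarith

end

theorem t_SLAB (hBox : Pool.Agent.K1H88.DP.S_BOX) (hLow : S_LOW) : S_SLAB := by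
  classical
  intro F _ _ ι _ E _ _ _ B hB
  choose Ck hCk1 hCk using fun k => hBox (E k)
  obtain ⟨C₀, -, hC₀⟩ := hBox F
  obtain ⟨c, hc, hlow⟩ := hLow F
  have hNfin : (Bx F B).Finite := (hC₀ B hB).1
  obtain ⟨N₀, hN₀⟩ : ∃ N, N = hNfin.toFinset.card := ⟨_, rfl⟩
  set B' : ℝ := B + 1 + 4 * B ^ 2 with hB'
  have hB'1 : 1 ≤ B' := by rw [hB']; nlinarith
  refine ⟨(N₀ + 1) / c * ∏ k, (Ck k ^ 2 * B' ^ finrank ℚ (E k)), mul_pos (by positivity)
    (Finset.prod_pos fun k _ => ?_), fun J R μ i₀ hμ hμB hR => ?_⟩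
  · have := hCk1 k
    positivity
  have hR0 : ∀ k ∈ J, 0 < R k := fun k hk => by
    have h := hR k hk
    exact (mul_pos_iff_of_pos_left hμ).1 (by linarith)
  have hRμ : ∀ k ∈ J, 1 ≤ B' * (R k / μ) := by
    intro k hk
    have h := hR k hk
    have h1 : μ ^ 2 ≤ B' := by rw [hB']; nlinarith
    have h2 : 1 / μ ^ 2 ≤ R k / μ := by
      rw [div_le_div_iff₀ (by positivity) hμ]
      nlinarith
    have h3 : 1 ≤ B' * (1 / μ ^ 2) := by
      rw [mul_one_div, le_div_iff₀ (by positivity)]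
      linarith
    exact h3.trans (mul_le_mul_of_nonneg_left h2 (by linarith))
  -- the translates
  have hμ2 : 0 < 1 / μ ^ 2 := by positivity
  have hG := hlow (1 / μ ^ 2) hμ2
  have hGfin : (Bx F (1 / μ ^ 2)).Finite := by
    refine Set.finite_of_ncard_pos ?_
    have h1 : 0 < c * (1 / μ ^ 2) ^ finrank ℚ F := by positivity
    exact_mod_cast h1.trans_le hG
  obtain ⟨GF, hGF⟩ : ∃ s, s = hGfin.toFinset := ⟨_, rfl⟩
  have hGF' : ∀ b, b ∈ GF ↔ b ∈ Bx F (1 / μ ^ 2) := fun b => by
    rw [hGF, Set.Finite.mem_toFinset]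
  have hGc : c * (1 / μ ^ 2) ^ finrank ℚ F ≤ (GF.card : ℝ) := by
    rw [hGF, ← Set.ncard_eq_toFinset_card _ hGfin]
    exact hG
  -- the two boxes
  let SX : ∀ k, Set (E k) := fun k => if k ∈ J then Bx (E k) (μ * R k) else {0}
  let SY : ∀ k, Set (E k) := fun k => if k ∈ J then Bx (E k) (B' * (R k / μ)) else {1}
  have hSX : ∀ k, (SX k).Finite ∧ ((SX k).ncard : ℝ) ≤
      if k ∈ J then Ck k * (μ * R k) ^ finrank ℚ (E k) else 1 := by
    intro k
    by_cases hk : k ∈ J
    · simp only [SX, if_pos hk]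
      exact hCk k (μ * R k) (hR k hk)
    · simp only [SX, if_neg hk]
      exact ⟨Set.finite_singleton 0, by simp⟩
  have hSY : ∀ k, (SY k).Finite ∧ ((SY k).ncard : ℝ) ≤
      if k ∈ J then Ck k * (B' * (R k / μ)) ^ finrank ℚ (E k) else 1 := by
    intro k
    by_cases hk : k ∈ J
    · simp only [SY, if_pos hk]
      exact hCk k _ (hRμ k hk)
    · simp only [SY, if_neg hk]
      exact ⟨Set.finite_singleton 1, by simp⟩
  let FX : Finset (∀ k, E k) := Fintype.piFinset fun k => (hSX k).1.toFinset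
  let FY : Finset (∀ k, E k) := Fintype.piFinset fun k => (hSY k).1.toFinset
  have hmemX : ∀ x, x ∈ FX ↔ ∀ k, x k ∈ SX k := by
    intro x; simp only [FX, Fintype.mem_piFinset, Set.Finite.mem_toFinset]
  have hmemY : ∀ y, y ∈ FY ↔ ∀ k, y k ∈ SY k := by
    intro y; simp only [FY, Fintype.mem_piFinset, Set.Finite.mem_toFinset]
  -- the translates are in the box
  have hkey : ∀ P ∈ Slab F E J B R μ i₀, ∀ b ∈ Bx F (1 / μ ^ 2), P.1 ∈ FX ∧
      (P.2 + b • P.1) ∈ FY := by
    rintro ⟨x, y⟩ ⟨hint, hout, hin, -⟩ b ⟨hbi, hbn⟩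
    refine ⟨(hmemX x).2 fun k => ?_, (hmemY _).2 fun k => ?_⟩
    · by_cases hk : k ∈ J
      · simp only [SX, if_pos hk]
        exact ⟨(hint k).1, fun σ => (hin k hk σ).1⟩
      · simp only [SX, if_neg hk]
        exact (hout k hk).1
    · rw [Pi.add_apply, Pi.smul_apply, Algebra.smul_def]
      by_cases hk : k ∈ J
      · simp only [SY, if_pos hk]
        refine ⟨(hint k).2.add ((hbi.algebraMap (B := E k)).mul (hint k).1), fun σ => ?_⟩
        obtain ⟨h1, h2⟩ := hin k hk σ
        have hRk := hR0 k hk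
        have h3 : ‖σ (algebraMap F (E k) b)‖ ≤ 1 / μ ^ 2 := hbn (σ.comp (algebraMap F (E k)))
        have h6 : 0 ≤ R k / μ := by positivity
        rw [map_add, map_mul]
        calc ‖σ (y k) + σ (algebraMap F (E k) b) * σ (x k)‖
            ≤ ‖σ (y k)‖ + ‖σ (algebraMap F (E k) b) * σ (x k)‖ := norm_add_le _ _
          _ = ‖σ (y k)‖ + ‖σ (algebraMap F (E k) b)‖ * ‖σ (x k)‖ := by rw [norm_mul]
          _ ≤ B * R k / μ + 1 / μ ^ 2 * (μ * R k) := by
              refine add_le_add h2 (mul_le_mul h3 h1 (norm_nonneg _) (by positivity))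
          _ = (B + 1) * (R k / μ) := by field_simp
          _ ≤ B' * (R k / μ) := by
              refine mul_le_mul_of_nonneg_right ?_ h6
              rw [hB']; nlinarith
      · simp only [SY, if_neg hk]
        have h1 := hout k hk
        simp only at h1
        rw [h1.1, h1.2, mul_zero, add_zero]
        rfl
  have h0G : (0 : F) ∈ Bx F (1 / μ ^ 2) := ⟨isIntegral_zero, fun σ => by
    rw [map_zero, norm_zero]; exact hμ2.le⟩
  have hfin : (Slab F E J B R μ i₀).Finite := by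
    refine (FX ×ˢ FY).finite_toSet.subset fun P hP => ?_
    have h := hkey P hP 0 h0G
    rw [Finset.mem_coe, Finset.mem_product]
    refine ⟨h.1, ?_⟩
    have h2 := h.2
    rwa [zero_smul, add_zero] at h2
  refine ⟨hfin, ?_⟩
  have hcard : (Slab F E J B R μ i₀).ncard * GF.card ≤ N₀ * (FX.card * FY.card) := by
    have e1 : (Slab F E J B R μ i₀).ncard * GF.card = (hfin.toFinset ×ˢ GF).card := by
      rw [Finset.card_product, Set.ncard_eq_toFinset_card _ hfin]
    rw [e1, ← Finset.card_product]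
    refine Finset.card_le_mul_card_image_of_maps_to
      (f := fun Q : ((∀ k, E k) × (∀ k, E k)) × F => (Q.1.1, Q.1.2 + Q.2 • Q.1.1)) ?_ N₀ ?_
    · rintro ⟨P, b⟩ h
      rw [Finset.mem_product, Set.Finite.mem_toFinset] at h
      rw [Finset.mem_product]
      exact hkey P h.1 b ((hGF' b).1 h.2)
    · intro Z _
      rcases Finset.eq_empty_or_nonempty ((hfin.toFinset ×ˢ GF).filter
        fun Q => (Q.1.1, Q.1.2 + Q.2 • Q.1.1) = Z) with he | ⟨Q₀, hQ₀⟩
      · rw [he, Finset.card_empty]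
        exact Nat.zero_le _
      · rw [hN₀]
        rw [Finset.mem_filter, Finset.mem_product, Set.Finite.mem_toFinset] at hQ₀
        refine Finset.card_le_card_of_injOn (fun Q => Q.2 - Q₀.2) ?_ ?_
        · intro Q hQ
          rw [Finset.mem_coe, Finset.mem_filter, Finset.mem_product,
            Set.Finite.mem_toFinset] at hQ
          rw [Finset.mem_coe, Set.Finite.mem_toFinset]
          refine ⟨((hGF' _).1 hQ.1.2).1.sub ((hGF' _).1 hQ₀.1.2).1, fun u => ?_⟩
          have h1 := hQ.2.trans hQ₀.2.symm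
          simp only [Prod.mk.injEq] at h1
          have h2 := hQ.1.1.2.2.2
          have h3 := hQ₀.1.1.2.2.2
          rw [h1.1] at h2
          refine slab_diff h2 h3 ?_ u
          rw [← h1.2, h1.1]
        · intro Q hQ Q' hQ' heq
          rw [Finset.mem_coe, Finset.mem_filter, Finset.mem_product,
            Set.Finite.mem_toFinset] at hQ hQ'
          have h1 : Q.2 = Q'.2 := sub_left_inj.1 heq
          have h2 := hQ.2.trans hQ'.2.symm
          simp only [Prod.mk.injEq] at h2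
          have h3 := h2.2
          rw [h1, h2.1] at h3
          have h4 := add_right_cancel h3
          exact Prod.ext (Prod.ext h2.1 h4) h1
  have hXc : (FX.card : ℝ) ≤ ∏ k, (if k ∈ J then Ck k * (μ * R k) ^ finrank ℚ (E k) else 1) := by
    simp only [FX]
    rw [Fintype.card_piFinset]
    push_cast
    refine Finset.prod_le_prod (fun k _ => Nat.cast_nonneg _) fun k _ => ?_
    have h := (hSX k).2
    rwa [Set.ncard_eq_toFinset_card _ (hSX k).1] at h
  have hYc : (FY.card : ℝ) ≤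
      ∏ k, (if k ∈ J then Ck k * (B' * (R k / μ)) ^ finrank ℚ (E k) else 1) := by
    simp only [FY]
    rw [Fintype.card_piFinset]
    push_cast
    refine Finset.prod_le_prod (fun k _ => Nat.cast_nonneg _) fun k _ => ?_
    have h := (hSY k).2
    rwa [Set.ncard_eq_toFinset_card _ (hSY k).1] at h
  have hprod : (FX.card : ℝ) * FY.card ≤ (∏ k, (Ck k ^ 2 * B' ^ finrank ℚ (E k))) *
      ∏ k ∈ J, R k ^ (2 * finrank ℚ (E k)) := by
    have hJ : ∏ k ∈ J, R k ^ (2 * finrank ℚ (E k)) =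
        ∏ k, (if k ∈ J then R k ^ (2 * finrank ℚ (E k)) else 1) := by
      rw [Finset.prod_ite_mem, Finset.univ_inter]
    have h0 : (0 : ℝ) ≤ ∏ k, (if k ∈ J then Ck k * (μ * R k) ^ finrank ℚ (E k) else 1) :=
      (Nat.cast_nonneg _).trans hXc
    refine (mul_le_mul hXc hYc (Nat.cast_nonneg _) h0).trans ?_
    rw [hJ, ← Finset.prod_mul_distrib, ← Finset.prod_mul_distrib]
    refine Finset.prod_le_prod (fun k _ => ?_) fun k _ => ?_
    · have h1 := hCk1 k
      by_cases hk : k ∈ J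
      · have h2 := hR0 k hk
        rw [if_pos hk, if_pos hk]
        positivity
      · rw [if_neg hk, if_neg hk]
        positivity
    · have h1 := hCk1 k
      by_cases hk : k ∈ J
      · rw [if_pos hk, if_pos hk, if_pos hk]
        have h3 : (μ * R k) * (B' * (R k / μ)) = B' * R k ^ 2 := by
          field_simp
        have h4 : Ck k * (μ * R k) ^ finrank ℚ (E k) *
            (Ck k * (B' * (R k / μ)) ^ finrank ℚ (E k)) =
            Ck k ^ 2 * ((μ * R k) * (B' * (R k / μ))) ^ finrank ℚ (E k) := by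
          rw [mul_pow (μ * R k)]; ring
        rw [h4, h3, mul_pow, ← pow_mul]
        apply le_of_eq
        ring
      · rw [if_neg hk, if_neg hk, if_neg hk, one_mul, mul_one]
        have h2 : 1 ≤ Ck k ^ 2 := one_le_pow₀ h1
        have h3 : 1 ≤ B' ^ finrank ℚ (E k) := one_le_pow₀ hB'1
        nlinarith
  set Pr : ℝ := (∏ k, (Ck k ^ 2 * B' ^ finrank ℚ (E k))) * ∏ k ∈ J, R k ^ (2 * finrank ℚ (E k))
    with hPr
  have hPr0 : 0 ≤ Pr := (by positivity : (0 : ℝ) ≤ (FX.card : ℝ) * FY.card).trans hprod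
  have hcard' : ((Slab F E J B R μ i₀).ncard : ℝ) * GF.card ≤ N₀ * (FX.card * FY.card) := by
    exact_mod_cast hcard
  have h1 : ((Slab F E J B R μ i₀).ncard : ℝ) * (c * (1 / μ ^ 2) ^ finrank ℚ F) ≤
      (N₀ + 1) * Pr := by
    calc ((Slab F E J B R μ i₀).ncard : ℝ) * (c * (1 / μ ^ 2) ^ finrank ℚ F)
        ≤ ((Slab F E J B R μ i₀).ncard : ℝ) * GF.card :=
          mul_le_mul_of_nonneg_left hGc (Nat.cast_nonneg _)
      _ ≤ N₀ * (FX.card * FY.card) := hcard'
      _ ≤ N₀ * Pr := mul_le_mul_of_nonneg_left hprod (Nat.cast_nonneg _)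
      _ ≤ _ := by nlinarith
  have h2 : c * (1 / μ ^ 2) ^ finrank ℚ F * (μ ^ (2 * finrank ℚ F) / c) = 1 := by
    rw [one_div, inv_pow, ← pow_mul]
    field_simp
  calc ((Slab F E J B R μ i₀).ncard : ℝ)
      = ((Slab F E J B R μ i₀).ncard : ℝ) * (c * (1 / μ ^ 2) ^ finrank ℚ F) *
        (μ ^ (2 * finrank ℚ F) / c) := by rw [mul_assoc, h2, mul_one]
    _ ≤ (N₀ + 1) * Pr * (μ ^ (2 * finrank ℚ F) / c) :=
        mul_le_mul_of_nonneg_right h1 (by positivity)
    _ = _ := by rw [hPr]; ring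

end Pool.Agent.K1H45.DF
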